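import Pool.Agent.N818.SL.Lcb
import Pool.Agent.N818.SL.Prim
import Pool.Agent.N818.SL.Add
import Pool.Agent.Y210.Z702.LOT
import Pool.Agent.Z290.COB
import Pool.Agent.Z488.Coc
import Pool.Agent.N818.SN.Stm4

/-!
# Project SN (helper818), second part: the 2-primary part of `Ш(WF n)`

Written by helper681, an adaptation of the files `SN/Gen`, `SN/StrB`, `SN/StrC`, `SN/CntB` of helper818
(the general lemmas are copied).
-/

set_option autoImplicit false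

open scoped Classical

namespace Pool.Agent.N681.SN

open Finset WeierstrassCurve
open Pool.Agent.TH841.SH.D
open Pool.Agent.Z702 (LocI WZ coc T0)
open Pool.Agent.N877.P24 (Qc)
open Pool.Agent.N818.SL (coc_add cls cls_eq cls_add cls_zero_iff prim lcb coc_cob coc_one)
open Pool.Agent.N818.SN (Fm LK S_TR CG S_LOCF S_JF S_SF NPG SPG T3G)

variable {a b : ℤ}

section

attribute [-instance] DivisionRing.toRatAlgebra

lemma act_id {W : WeierstrassCurve ℚ} (P : Pt W (AlgebraicClosure ℚ)) :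
    act W (AlgHom.id ℚ (AlgebraicClosure ℚ)) P = P := by
  rcases P with _ | ⟨x, y, h⟩
  · rfl
  · rfl

/-- the class of a rational point of the isogenous curve is trivial -/
theorem loc_cob (hb : b ≠ 0) (hab : a ^ 2 - 4 * b ≠ 0) {d : ℤ} (hd : d ≠ 0)
    (h : LocI ℚ a b d) : IsCob (WZ a b) (coc hb d) := by
  obtain ⟨P, hP⟩ := Pool.Agent.Y210.Z702.t_LOT a b hb d hab hd ℚ h (AlgHom.id ℚ _)
  refine ⟨P, fun σ => ?_⟩
  have h1 := hP σ σ (fun x => rfl)
  rw [act_id] at h1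
  exact h1

end

lemma coc_two (hb : b ≠ 0) (y : ℤ) : coc (a := a) hb y + coc hb y = 0 :=
  (Pool.Agent.Z488.t_COC a b hb y : IsCoc (WZ a b) _ ∧ _).2

/-- two classes are equal iff the class of the product is trivial -/
lemma cob_sub (hb : b ≠ 0) {x y c m : ℤ} (hx : x ≠ 0) (hy : y ≠ 0) (hm : m ≠ 0)
    (hxy : x * y = c * m ^ 2) :
    IsCob (WZ a b) (coc hb x - coc hb y) ↔ IsCob (WZ a b) (coc hb c) := by
  have h3 := coc_add (a := a) hb hx hy hm hxy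
  have e : coc (a := a) hb x - coc hb y = coc hb c := by
    rw [h3, sub_eq_iff_eq_add, add_assoc, coc_two, add_zero]
  rw [e]

/-- the classes of the rational points, if `E'(ℚ)` is finite of order four times an odd number -/
theorem cob_tor (hTR : S_TR) {n d : ℤ} (hn : n ≠ 0) (hb : n ^ 2 ≠ 0)
    (hab : a ^ 2 - 4 * n ^ 2 ≠ 0) (hd : d ≠ 0)
    (hk : ∃ k : ℕ, Odd k ∧ Nat.card (WZ (-2 * a) (a ^ 2 - 4 * n ^ 2)).toAffine.Point = 4 * k)
    (h : IsCob (WZ a (n ^ 2)) (coc hb d)) :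
    IsSquare (d : ℚ) ∨ IsSquare ((d : ℚ) * ((a : ℚ) ^ 2 - 4 * (n : ℚ) ^ 2)) ∨
    IsSquare ((d : ℚ) * ((a : ℚ) + 2 * n)) ∨ IsSquare ((d : ℚ) * ((a : ℚ) - 2 * n)) := by
  rcases Pool.Agent.Z290.COBf.t_COB a (n ^ 2) hb d hab hd h with h1 | h1 | h1
  · exact Or.inl h1
  · refine Or.inr (Or.inl ?_)
    push_cast at h1
    exact h1
  · exact hTR a n d hn hab hd hk h1

/-- a squarefree integer which is a square is `1` -/
lemma one_of_sqZ {c : ℤ} (hc : Squarefree c) (h : IsSquare (c : ℚ)) : c = 1 := by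
  rw [Rat.isSquare_intCast_iff] at h
  obtain ⟨r, rfl⟩ := h
  have h1 := hc r (dvd_refl _)
  rcases Int.isUnit_iff.1 h1 with h2 | h2 <;> rw [h2] <;> norm_num

/-- `c = d` if both are squarefree and `c d` is a square -/
lemma eq_of_sqZ {c d : ℤ} (hc : Squarefree c) (hd : Squarefree d)
    (h : IsSquare ((c : ℚ) * (d : ℚ))) : c = d := by
  have h1 : IsSquare (((c * d : ℤ)) : ℚ) := by
    push_cast
    exact h
  rw [Rat.isSquare_intCast_iff] at h1
  have hass : Associated c d := by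
    have hg : IsSquare (c * d) := h1
    -- divide by the gcd
    obtain ⟨g, c', d', hc', hd', hcop⟩ : ∃ g c' d' : ℤ, c = g * c' ∧ d = g * d' ∧ IsCoprime c' d' := by
      have hc0 : c ≠ 0 := hc.ne_zero
      obtain ⟨c', d', h4, h5, h3⟩ := extract_gcd (α := ℤ) c d
      exact ⟨gcd c d, c', d', h4, h5, (gcd_isUnit_iff _ _).1 h3⟩
    have hg0 : g ≠ 0 := by
      rintro rfl
      rw [zero_mul] at hc'
      exact hc.ne_zero hc'
    have h6 : IsSquare (c' * d') := by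
      obtain ⟨r, hr⟩ := hg
      rw [hc', hd'] at hr
      have h7 : g ^ 2 * (c' * d') = r ^ 2 := by linear_combination hr
      have h8 : g ^ 2 ∣ r ^ 2 := ⟨_, h7.symm⟩
      obtain ⟨s, hs⟩ := (Int.pow_dvd_pow_iff (by norm_num : (2 : ℕ) ≠ 0)).1 h8
      refine ⟨s, ?_⟩
      rw [hs] at h7
      have h9 : g ^ 2 * (c' * d') = g ^ 2 * (s * s) := by linear_combination h7
      exact mul_left_cancel₀ (pow_ne_zero 2 hg0) h9
    have hc'sq : Squarefree c' := hc.squarefree_of_dvd (Dvd.intro_left _ hc'.symm)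
    have hd'sq : Squarefree d' := hd.squarefree_of_dvd (Dvd.intro_left _ hd'.symm)
    have h10 : Squarefree (c' * d') := by
      rw [squarefree_mul_iff]
      exact ⟨hcop.isRelPrime, hc'sq, hd'sq⟩
    obtain ⟨s, hs⟩ := h6
    have h11 := h10 s (by rw [hs])
    have h12 : IsUnit (c' * d') := by
      rw [hs]
      exact h11.mul h11
    rw [IsUnit.mul_iff] at h12
    rw [hc', hd']
    exact (Associated.refl g).mul_mul ((associated_one_iff_isUnit.2 h12.1).trans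
      (associated_one_iff_isUnit.2 h12.2).symm)
  rcases Int.associated_iff.1 hass with h2 | h2
  · exact h2
  · exfalso
    have h3 := h1.nonneg
    rw [h2] at h3
    have h4 : d ≠ 0 := hd.ne_zero
    have h5 : 0 < d ^ 2 := by positivity
    nlinarith

/-! ### elementary facts -/

/-- a product of different primes is squarefree -/
lemma sqf_prod {J : Finset ℕ} (hJ : ∀ q ∈ J, q.Prime) : Squarefree (∏ q ∈ J, q) := by
  induction J using Finset.induction_on with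
  | empty => simp
  | insert q J hq ih =>
    rw [Finset.prod_insert hq, Nat.squarefree_mul_iff]
    refine ⟨?_, (hJ q (mem_insert_self q J)).prime.squarefree,
      ih fun r hr => hJ r (mem_insert_of_mem hr)⟩
    apply Nat.Coprime.prod_right
    intro r hr
    rw [Nat.coprime_primes (hJ q (mem_insert_self q J)) (hJ r (mem_insert_of_mem hr))]
    rintro rfl
    exact hq hr

lemma cob_of_eq {W : WeierstrassCurve ℚ} {c c' : shaCoc W} (h : cls W c = cls W c') :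
    IsCob W (c.1 - c'.1) := by
  have h1 : cls W (c - c') = 0 := by
    have h2 : cls W (c - c') = cls W c - cls W c' := rfl
    rw [h2, h, sub_self]
  exact (cls_zero_iff (c - c')).1 h1

lemma prod_symm (J J' : Finset ℕ) : (∏ q ∈ J, q) * ∏ q ∈ J', q =
    (∏ q ∈ (J \ J') ∪ (J' \ J), q) * (∏ q ∈ J ∩ J', q) ^ 2 := by
  rw [Finset.prod_union (by
    rw [Finset.disjoint_left]
    intro q h1 h2
    rw [mem_sdiff] at h1 h2
    exact h1.2 h2.1)]
  have e1 : ∏ q ∈ J, q = (∏ q ∈ J \ J', q) * ∏ q ∈ J ∩ J', q := by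
    rw [← Finset.prod_union (by
      rw [Finset.disjoint_left]
      intro q h1 h2
      rw [mem_sdiff] at h1
      exact h1.2 (mem_inter.1 h2).2), Finset.sdiff_union_inter]
  have e2 : ∏ q ∈ J', q = (∏ q ∈ J' \ J, q) * ∏ q ∈ J ∩ J', q := by
    rw [Finset.inter_comm, ← Finset.prod_union (by
      rw [Finset.disjoint_left]
      intro q h1 h2
      rw [mem_sdiff] at h1
      exact h1.2 (mem_inter.1 h2).2), Finset.sdiff_union_inter]
  rw [e1, e2]
  ring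

section

variable {n : ℕ}

lemma pf_ne (hn : Fm n) {p : ℕ} (hp : p ∈ n.primeFactors) : p.Prime ∧ p ∣ n ∧ p ≠ 2 ∧ p ≠ 3 := by
  obtain ⟨h1, h2, h3⟩ := Nat.mem_primeFactors.1 hp
  have h4 := hn.2
  refine ⟨h1, h2, ?_, ?_⟩
  · rintro rfl
    omega
  · rintro rfl
    omega

lemma n_ne (hn : Fm n) : (n : ℤ) ≠ 0 := by
  have h4 := hn.2
  have : n ≠ 0 := by omega
  exact_mod_cast this

lemma n_pos (hn : Fm n) : (0 : ℤ) < n := by
  have h4 := hn.2
  have : 0 < n := by omega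
  exact_mod_cast this

lemma n_sqf (hn : Fm n) : Squarefree (n : ℤ) := Int.squarefree_natCast.2 hn.1

lemma nn_ne (hn : Fm n) : (n : ℤ) ^ 2 ≠ 0 := pow_ne_zero 2 (n_ne hn)

lemma pf_odd (hn : Fm n) {p : ℕ} (hp : p ∈ n.primeFactors) : p % 2 = 1 := by
  have h := pf_ne hn hp
  exact (h.1.eq_two_or_odd).resolve_left h.2.2.1

/-- the prime factors of `d` are two and primes which divide `n` -/
lemma natAbs_of {d : ℤ} (hd : Squarefree d)
    (h : ∀ p : ℕ, p.Prime → p ≠ 2 → (p : ℤ) ∣ d → p ∈ n.primeFactors) (h3n : ¬ 2 ∣ n) :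
    d.natAbs = (if (2 : ℤ) ∣ d then 2 else 1) * ∏ q ∈ n.primeFactors.filter (fun q : ℕ => (q : ℤ) ∣ d), q := by
  have hd0 : d.natAbs ≠ 0 := Int.natAbs_ne_zero.2 hd.ne_zero
  have hsq := Int.squarefree_natAbs.2 hd
  rw [← Nat.prod_primeFactors_of_squarefree hsq]
  have h3 : 2 ∉ n.primeFactors.filter (fun q : ℕ => (q : ℤ) ∣ d) := by
    intro h4
    exact h3n (Nat.dvd_of_mem_primeFactors (mem_filter.1 h4).1)
  have key : ∀ p : ℕ, p ∈ d.natAbs.primeFactors ↔ p.Prime ∧ (p : ℤ) ∣ d := by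
    intro p
    rw [Nat.mem_primeFactors, Int.natCast_dvd]
    exact ⟨fun h => ⟨h.1, h.2.1⟩, fun h => ⟨h.1, h.2, hd0⟩⟩
  by_cases h5 : (2 : ℤ) ∣ d
  · rw [if_pos h5, ← prod_insert (f := fun q => q) h3]
    refine prod_congr (Finset.ext fun p => ?_) fun _ _ => rfl
    rw [key, mem_insert, mem_filter]
    constructor
    · rintro ⟨hp, hpd⟩
      by_cases hp3 : p = 2
      · exact Or.inl hp3
      · exact Or.inr ⟨h p hp hp3 hpd, hpd⟩
    · rintro (rfl | ⟨h6, h7⟩)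
      · exact ⟨Nat.prime_two, by exact_mod_cast h5⟩
      · exact ⟨Nat.prime_of_mem_primeFactors h6, h7⟩
  · rw [if_neg h5, one_mul]
    refine prod_congr (Finset.ext fun p => ?_) fun _ _ => rfl
    rw [key, mem_filter]
    constructor
    · rintro ⟨hp, hpd⟩
      refine ⟨h p hp ?_ hpd, hpd⟩
      rintro rfl
      exact h5 (by exact_mod_cast hpd)
    · rintro ⟨h6, h7⟩
      exact ⟨Nat.prime_of_mem_primeFactors h6, h7⟩

lemma n_erase (hn : Fm n) {p : ℕ} (hp : p ∈ n.primeFactors) :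
    (n : ℤ) = p * ∏ q ∈ n.primeFactors.erase p, (q : ℤ) := by
  rw [Finset.mul_prod_erase _ (fun q : ℕ => (q : ℤ)) hp]
  have := congrArg (Nat.cast : ℕ → ℤ) (Nat.prod_primeFactors_of_squarefree hn.1)
  rw [Nat.cast_prod] at this
  exact this.symm

/-- in a field, `c` a nonzero square: `c x` is a square iff `x` is -/
lemma sq_cancel {K : Type} [Field K] {c x : K} (hc : IsSquare c) (hc0 : c ≠ 0)
    (h : IsSquare (c * x)) : IsSquare x := by
  have h1 := h.div hc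
  rwa [mul_div_cancel_left₀ x hc0] at h1

end

/-- the product of the set -/
def dC (J : Finset ℕ) : ℤ := ∏ q ∈ J, (q : ℤ)

lemma dC_cast (J : Finset ℕ) : dC J = ((∏ q ∈ J, q : ℕ) : ℤ) := by
  unfold dC
  rw [Nat.cast_prod]

section

variable {n : ℕ} (hn : Fm n)

include hn

lemma dC_sqf {J : Finset ℕ} (hJ : J ⊆ n.primeFactors) : Squarefree (dC J) := by
  rw [dC_cast, Int.squarefree_natCast]
  exact sqf_prod fun q hq => (pf_ne hn (hJ hq)).1

lemma dC_pos {J : Finset ℕ} (hJ : J ⊆ n.primeFactors) : 0 < dC J := by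
  rw [dC_cast]
  exact_mod_cast Finset.prod_pos fun q hq => (pf_ne hn (hJ hq)).1.pos

lemma dC_all : dC n.primeFactors = n := by
  rw [dC_cast, Nat.prod_primeFactors_of_squarefree hn.1]

lemma dvd_dC {J : Finset ℕ} (hJ : J ⊆ n.primeFactors) {p : ℕ} (hp : p.Prime) :
    (p : ℤ) ∣ dC J ↔ p ∈ J := by
  rw [dC_cast, Int.natCast_dvd_natCast, hp.prime.dvd_finsetProd_iff]
  constructor
  · rintro ⟨q, hq, h2⟩
    rw [(Nat.prime_dvd_prime_iff_eq hp (pf_ne hn (hJ hq)).1)] at h2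
    exact h2 ▸ hq
  · exact fun h => ⟨p, h, dvd_refl p⟩

lemma p_dC {J : Finset ℕ} (hJ : J ⊆ n.primeFactors) {p : ℕ} (hp : p.Prime) (h : p ∉ n.primeFactors) :
    ¬ (p : ℤ) ∣ dC J := fun h' => h (hJ ((dvd_dC hn hJ hp).1 h'))

lemma three_not : 3 ∉ n.primeFactors := fun h => (pf_ne hn h).2.2.2 rfl

lemma two_not : 2 ∉ n.primeFactors := fun h => (pf_ne hn h).2.2.1 rfl

lemma habF : (34 * (n : ℤ)) ^ 2 - 4 * (n : ℤ) ^ 2 ≠ 0 := by
  have e : (34 * (n : ℤ)) ^ 2 - 4 * (n : ℤ) ^ 2 = 1152 * (n : ℤ) ^ 2 := by ring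
  rw [e]
  exact mul_ne_zero (by norm_num) (nn_ne hn)

omit hn in
lemma dC_erase {J : Finset ℕ} {p : ℕ} (hp : p ∈ J) :
    dC J = p * ∏ q ∈ J.erase p, (q : ℤ) := by
  unfold dC
  rw [Finset.mul_prod_erase _ (fun q : ℕ => (q : ℤ)) hp]

lemma mem_pf {p : ℕ} (hp : p.Prime) : (p : ℤ) ∣ n ↔ p ∈ n.primeFactors := by
  rw [Int.natCast_dvd_natCast, Nat.mem_primeFactors]
  have h24 := hn.2
  have : n ≠ 0 := by omega
  tauto

omit hn in
/-- the local statements without the factor one -/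
lemma loc_one (hL : S_LOCF) : (∀ (p : ℕ) [Fact p.Prime] (n d : ℤ), p ≠ 2 → p ≠ 3 →
    Squarefree n → Squarefree d → LK ℚ_[p] (34 * n) (n ^ 2) d →
    (¬ (p : ℤ) ∣ n → ¬ (p : ℤ) ∣ d) ∧
    ((p : ℤ) ∣ n → IsSquare ((2 : ℤ) : ZMod p) → (¬ (p : ℤ) ∣ d → IsSquare (d : ZMod p)) ∧
      ∀ n' d' : ℤ, n = p * n' → d = p * d' → IsSquare ((n' * d' : ℤ) : ZMod p))) ∧
    (∀ (p : ℕ) [Fact p.Prime] (n d : ℤ), p ≠ 2 → p ≠ 3 → Squarefree n → Squarefree d →
      (¬ (p : ℤ) ∣ n → ¬ (p : ℤ) ∣ d → LocI ℚ_[p] (34 * n) (n ^ 2) d) ∧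
      ((p : ℤ) ∣ n → ¬ IsSquare ((2 : ℤ) : ZMod p) → LocI ℚ_[p] (34 * n) (n ^ 2) d) ∧
      (¬ (p : ℤ) ∣ d → IsSquare (d : ZMod p) → LocI ℚ_[p] (34 * n) (n ^ 2) d) ∧
      ∀ n' d' : ℤ, n = p * n' → d = p * d' → IsSquare ((n' * d' : ℤ) : ZMod p) →
        LocI ℚ_[p] (34 * n) (n ^ 2) d) ∧
    (∀ n d : ℤ, n % 3 = 2 → Squarefree d → (LK ℚ_[3] (34 * n) (n ^ 2) d → ¬ (3 : ℤ) ∣ d) ∧
      (¬ (3 : ℤ) ∣ d → LocI ℚ_[3] (34 * n) (n ^ 2) d)) ∧
    ∀ n d : ℤ, Squarefree d → (n % 8 = 3 → LocI ℚ_[2] (34 * n) (n ^ 2) d) ∧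
      (0 < n → (LK ℝ (34 * n) (n ^ 2) d → 0 < d) ∧ (0 < d → LocI ℝ (34 * n) (n ^ 2) d)) := by
  unfold S_LOCF NPG SPG T3G at hL
  simp only [one_mul] at hL
  exact hL

/-- sufficiency -/
theorem sufF (hL : S_LOCF) {J : Finset ℕ} (hJ : CG 2 1 n.primeFactors J)
    (p : ℕ) [hfp : Fact p.Prime] : LocI ℚ_[p] (34 * n) ((n : ℤ) ^ 2) (dC J) := by
  obtain ⟨-, hSP, hT3, hT2⟩ := loc_one hL
  have hp : p.Prime := hfp.out
  have hsf := dC_sqf hn hJ.1
  have h24 := hn.2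
  by_cases hp2 : p = 2
  · subst hp2
    exact (hT2 n _ hsf).1 (by omega)
  by_cases hp3 : p = 3
  · subst hp3
    refine (hT3 n _ (by omega) hsf).2 ?_
    have := p_dC hn hJ.1 hp (three_not hn)
    exact_mod_cast this
  obtain ⟨s1, s2, s3, s4⟩ := hSP p n (dC J) hp2 hp3 (n_sqf hn) hsf
  by_cases hpD : p ∈ n.primeFactors
  swap
  · exact s1 (fun h => hpD ((mem_pf hn hp).1 h)) (p_dC hn hJ.1 hp hpD)
  by_cases hp1 : IsSquare ((2 : ℤ) : ZMod p)
  · have hq := hJ.2 p hpD hp1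
    simp only [one_mul] at hq
    by_cases hpJ : p ∈ J
    · exact s4 _ _ (n_erase hn hpD) (dC_erase hpJ) (hq.2 hpJ)
    · exact s3 (fun h => hpJ ((dvd_dC hn hJ.1 hp).1 h)) (hq.1 hpJ)
  · exact s2 ((mem_pf hn hp).2 hpD) hp1

/-- necessity -/
theorem necF (hL : S_LOCF) {d : ℤ} (hd : Squarefree d)
    (hl : ∀ (p : ℕ) [Fact p.Prime], LK ℚ_[p] (34 * n) ((n : ℤ) ^ 2) d)
    (hr : LK ℝ (34 * n) ((n : ℤ) ^ 2) d) :
    ∃ J, CG 2 1 n.primeFactors J ∧ ∃ m : ℤ, m ≠ 0 ∧ ∃ c : ℤ, (c = 1 ∨ c = 2) ∧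
      d * dC J = c * m ^ 2 := by
  obtain ⟨hNP, -, hT3, hT2⟩ := loc_one hL
  have h24 := hn.2
  have hdpos : 0 < d := ((hT2 n d hd).2 (n_pos hn)).1 hr
  have : Fact (Nat.Prime 3) := ⟨Nat.prime_three⟩
  have hd3 : ¬ (3 : ℤ) ∣ d := (hT3 n d (by omega) hd).1 (hl 3)
  have hNP' := fun (p : ℕ) (hp : p.Prime) (hp2 : p ≠ 2) (hp3 : p ≠ 3) =>
    @hNP p ⟨hp⟩ n d hp2 hp3 (n_sqf hn) hd (@hl p ⟨hp⟩)
  have hfac : ∀ p : ℕ, p.Prime → p ≠ 2 → (p : ℤ) ∣ d → p ∈ n.primeFactors := by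
    intro p hp hp2 hpd
    by_contra hpD
    have hp3 : p ≠ 3 := by
      rintro rfl
      exact hd3 (by exact_mod_cast hpd)
    exact (hNP' p hp hp2 hp3).1 (fun h => hpD ((mem_pf hn hp).1 h)) hpd
  obtain ⟨J, hJdef⟩ : ∃ J, J = n.primeFactors.filter (fun q : ℕ => (q : ℤ) ∣ d) := ⟨_, rfl⟩
  have hJs : J ⊆ n.primeFactors := by
    rw [hJdef]
    exact filter_subset _ _
  have hab := natAbs_of hd hfac (by omega)
  rw [← hJdef] at hab
  obtain ⟨t, ht, h5⟩ : ∃ t : ℤ, (t = 1 ∨ t = 2) ∧ d = t * dC J := by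
    have h5 := dC_cast J
    by_cases h6 : (2 : ℤ) ∣ d
    · rw [if_pos h6] at hab
      refine ⟨2, Or.inr rfl, ?_⟩
      rw [h5]
      omega
    · rw [if_neg h6, one_mul] at hab
      refine ⟨1, Or.inl rfl, ?_⟩
      rw [h5, one_mul]
      omega
  have ht3 : ∀ p ∈ n.primeFactors, IsSquare ((2 : ℤ) : ZMod p) → IsSquare ((t : ℤ) : ZMod p) ∧
      ((t : ℤ) : ZMod p) ≠ 0 := by
    intro p hp h3
    obtain ⟨hpp, hpd, hp2, hp3⟩ := pf_ne hn hp
    have : Fact p.Prime := ⟨hpp⟩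
    rcases ht with h | h
    · rw [h]
      push_cast
      exact ⟨IsSquare.one, one_ne_zero⟩
    · rw [h]
      refine ⟨h3, ?_⟩
      intro h4
      have h7 : ((2 : ℕ) : ZMod p) = 0 := by exact_mod_cast h4
      rw [ZMod.natCast_eq_zero_iff] at h7
      exact hp2 ((Nat.prime_dvd_prime_iff_eq hpp Nat.prime_two).1 h7)
  have hmem : ∀ p ∈ n.primeFactors, (p ∈ J ↔ (p : ℤ) ∣ d) := by
    intro p hpD
    rw [hJdef, mem_filter]
    exact ⟨fun h => h.2, fun h => ⟨hpD, h⟩⟩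
  have hJ0 := (dC_sqf hn hJs).ne_zero
  refine ⟨J, ⟨hJs, fun p hpD hp1 => ?_⟩, dC J, hJ0, t, ht, by rw [h5]; ring⟩
  obtain ⟨hp, hpd, hp2, hp3⟩ := pf_ne hn hpD
  have : Fact p.Prime := ⟨hp⟩
  obtain ⟨h2, h3⟩ := (hNP' p hp hp2 hp3).2 ((mem_pf hn hp).2 hpD) hp1
  obtain ⟨q1, q2⟩ := ht3 p hpD hp1
  simp only [one_mul]
  constructor
  · intro hpJ
    have h4 := h2 fun h => hpJ ((hmem p hpD).2 h)
    rw [h5, Int.cast_mul] at h4
    exact sq_cancel q1 q2 h4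
  · intro hpJ
    have h4 := h3 _ (t * ∏ q ∈ J.erase p, (q : ℤ)) (n_erase hn hpD) (by
      rw [h5, dC_erase hpJ]
      ring)
    refine sq_cancel q1 q2 ?_
    rw [← Int.cast_mul]
    have e6 : t * ((∏ q ∈ n.primeFactors.erase p, (q : ℤ)) * ∏ q ∈ J.erase p, (q : ℤ)) =
        (∏ q ∈ n.primeFactors.erase p, (q : ℤ)) * (t * ∏ q ∈ J.erase p, (q : ℤ)) := by ring
    rw [e6]
    exact h4

/-- the class of a set -/
theorem memF (hL : S_LOCF) {J : Finset ℕ} (hJ : CG 2 1 n.primeFactors J) :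
    coc (a := 34 * (n : ℤ)) (nn_ne hn) (dC J) ∈ shaCoc (WZ (34 * n) ((n : ℤ) ^ 2)) := by
  have h24 := hn.2
  have hsf := dC_sqf hn hJ.1
  refine ⟨(Pool.Agent.Z488.t_COC _ _ (nn_ne hn) _).1, fun p hp => ?_, ?_⟩
  · exact Pool.Agent.Y210.Z702.t_LOT _ _ (nn_ne hn) _ (habF hn) hsf.ne_zero ℚ_[p]
      (sufF hn hL hJ p)
  · exact Pool.Agent.Y210.Z702.t_LOT _ _ (nn_ne hn) _ (habF hn) hsf.ne_zero ℝ
      ((((loc_one hL).2.2.2 n _ hsf).2 (n_pos hn)).2 (dC_pos hn hJ.1))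

omit hn in
/-- the trivial classes -/
lemma cob2 (hn : Fm n) : IsCob (WZ (34 * n) ((n : ℤ) ^ 2)) (coc (nn_ne hn) 2) :=
  coc_cob (nn_ne hn) (m := 48 * (n : ℤ)) (by norm_num)
    (mul_ne_zero (by norm_num) (n_ne hn)) (by ring)

omit hn in
lemma cobn (hn : Fm n) : IsCob (WZ (34 * n) ((n : ℤ) ^ 2)) (coc (nn_ne hn) (n : ℤ)) := by
  refine loc_cob (nn_ne hn) (habF hn) (n_ne hn) ⟨(36 * n : ℚ), 0, 6, ?_, ?_, ?_⟩
  · refine mul_ne_zero (by norm_num) ?_
    exact_mod_cast n_ne hn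
  · push_cast
    ring
  · push_cast
    ring

/-- when two sets give the same class -/
theorem injF (hTR : S_TR)
    (hk : ∃ k : ℕ, Odd k ∧
      Nat.card (WZ (-2 * (34 * (n : ℤ))) ((34 * (n : ℤ)) ^ 2 - 4 * (n : ℤ) ^ 2)).toAffine.Point =
        4 * k)
    {J J' : Finset ℕ} (hJ : J ⊆ n.primeFactors) (hJ' : J' ⊆ n.primeFactors) :
    IsCob (WZ (34 * n) ((n : ℤ) ^ 2)) (coc (nn_ne hn) (dC J) - coc (nn_ne hn) (dC J')) ↔
      J' = J ∨ J' = n.primeFactors \ J := by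
  have hsJ := dC_sqf hn hJ
  have hsJ' := dC_sqf hn hJ'
  have hset : (J \ J') ∪ (J' \ J) ⊆ n.primeFactors := by
    intro q hq
    rw [mem_union, mem_sdiff, mem_sdiff] at hq
    rcases hq with hq | hq
    · exact hJ hq.1
    · exact hJ' hq.1
  have hsc := dC_sqf hn hset
  have hi : dC (J ∩ J') ≠ 0 := (dC_sqf hn fun q hq => hJ (mem_inter.1 hq).1).ne_zero
  have hprod : dC J * dC J' = dC ((J \ J') ∪ (J' \ J)) * (dC (J ∩ J')) ^ 2 := by
    rw [dC_cast, dC_cast, dC_cast, dC_cast]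
    exact_mod_cast prod_symm J J'
  rw [cob_sub (nn_ne hn) hsJ.ne_zero hsJ'.ne_zero hi hprod]
  have h2c : ¬ (2 : ℤ) ∣ dC ((J \ J') ∪ (J' \ J)) := by
    have := p_dC hn hset Nat.prime_two (two_not hn)
    exact_mod_cast this
  have hn0 : (n : ℚ) ≠ 0 := by exact_mod_cast n_ne hn
  -- the possible products
  have hcase : IsCob (WZ (34 * n) ((n : ℤ) ^ 2)) (coc (nn_ne hn) (dC ((J \ J') ∪ (J' \ J)))) ↔
      dC ((J \ J') ∪ (J' \ J)) = 1 ∨ dC ((J \ J') ∪ (J' \ J)) = (n : ℤ) := by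
    constructor
    · intro h
      have h1 := cob_tor hTR (n_ne hn) (nn_ne hn) (habF hn) hsc.ne_zero hk h
      obtain ⟨c, hc⟩ : ∃ c, c = dC ((J \ J') ∪ (J' \ J)) := ⟨_, rfl⟩
      rw [← hc] at h1 hsc h2c ⊢
      rcases h1 with h1 | h1 | h1 | h1
      · exact Or.inl (one_of_sqZ hsc h1)
      · exfalso
        have h2 : IsSquare ((c : ℚ) * ((2 : ℤ) : ℚ)) := by
          refine sq_cancel (c := (24 * (n : ℚ)) ^ 2) (IsSquare.sq _)
            (pow_ne_zero 2 (mul_ne_zero (by norm_num) hn0)) ?_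
          have e : (24 * (n : ℚ)) ^ 2 * ((c : ℚ) * ((2 : ℤ) : ℚ)) =
              (c : ℚ) * (((34 * (n : ℤ) : ℤ) : ℚ) ^ 2 - 4 * (((n : ℤ)) : ℚ) ^ 2) := by
            push_cast
            ring
          rw [e]
          exact h1
        have h4 := eq_of_sqZ hsc Int.prime_two.squarefree h2
        exact h2c ⟨1, by rw [h4]; norm_num⟩
      · right
        have h2 : IsSquare ((c : ℚ) * ((n : ℤ) : ℚ)) := by
          refine sq_cancel (c := (6 : ℚ) ^ 2) (IsSquare.sq _) (by norm_num) ?_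
          have e : (6 : ℚ) ^ 2 * ((c : ℚ) * ((n : ℤ) : ℚ)) =
              (c : ℚ) * (((34 * (n : ℤ) : ℤ) : ℚ) + 2 * ((n : ℤ) : ℚ)) := by
            push_cast
            ring
          rw [e]
          exact h1
        exact eq_of_sqZ hsc (n_sqf hn) h2
      · exfalso
        have hs : Squarefree (2 * (n : ℤ)) := by
          rw [squarefree_mul_iff]
          refine ⟨?_, Int.prime_two.squarefree, n_sqf hn⟩
          have h24 := hn.2
          have : IsCoprime (2 : ℤ) n := by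
            rw [Int.isCoprime_iff_gcd_eq_one]
            have h5 : Nat.Coprime 2 n :=
              (Nat.Prime.coprime_iff_not_dvd Nat.prime_two).2 (by omega)
            exact_mod_cast h5
          exact this.isRelPrime
        have h2 : IsSquare ((c : ℚ) * ((2 * (n : ℤ) : ℤ) : ℚ)) := by
          refine sq_cancel (c := (4 : ℚ) ^ 2) (IsSquare.sq _) (by norm_num) ?_
          have e : (4 : ℚ) ^ 2 * ((c : ℚ) * ((2 * (n : ℤ) : ℤ) : ℚ)) =
              (c : ℚ) * (((34 * (n : ℤ) : ℤ) : ℚ) - 2 * ((n : ℤ) : ℚ)) := by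
            push_cast
            ring
          rw [e]
          exact h1
        have h4 := eq_of_sqZ hsc hs h2
        exact h2c ⟨n, h4⟩
    · rintro (h | h)
      · rw [h, coc_one]
        exact cob_zero _
      · rw [h]
        exact cobn hn
  rw [hcase]
  have hmem : ∀ p : ℕ, p.Prime → ((p : ℤ) ∣ dC ((J \ J') ∪ (J' \ J)) ↔
      p ∈ (J \ J') ∪ (J' \ J)) := fun p hp => dvd_dC hn hset hp
  constructor
  · rintro (h | h)
    · left
      have hem : (J \ J') ∪ (J' \ J) = ∅ := by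
        rw [Finset.eq_empty_iff_forall_notMem]
        intro q hq
        have hqp := (pf_ne hn (hset hq)).1
        have h5 := (hmem q hqp).2 hq
        rw [h] at h5
        have h6 : (q : ℤ) ∣ ((1 : ℕ) : ℤ) := by exact_mod_cast h5
        rw [Int.natCast_dvd_natCast] at h6
        exact hqp.one_lt.ne' (Nat.dvd_one.1 h6)
      rw [Finset.union_eq_empty, Finset.sdiff_eq_empty_iff_subset,
        Finset.sdiff_eq_empty_iff_subset] at hem
      exact Finset.Subset.antisymm hem.2 hem.1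
    · right
      have hall : ∀ q ∈ n.primeFactors, q ∈ (J \ J') ∪ (J' \ J) := by
        intro q hq
        obtain ⟨h5, h6, -⟩ := pf_ne hn hq
        rw [← hmem q h5, h]
        exact_mod_cast h6
      ext q
      rw [mem_sdiff]
      constructor
      · intro hq
        refine ⟨hJ' hq, fun hq' => ?_⟩
        have h5 := hall q (hJ' hq)
        rw [mem_union, mem_sdiff, mem_sdiff] at h5
        tauto
      · rintro ⟨hq, hq'⟩
        have h5 := hall q hq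
        rw [mem_union, mem_sdiff, mem_sdiff] at h5
        tauto
  · rintro (h | h)
    · left
      rw [h]
      simp [dC]
    · right
      rw [← dC_all hn]
      unfold dC
      refine prod_congr ?_ fun _ _ => rfl
      rw [h]
      ext q
      simp only [mem_union, mem_sdiff]
      constructor
      · rintro (h5 | h5)
        · exact hJ h5.1
        · exact h5.1.1
      · intro h5
        by_cases h6 : q ∈ J
        · exact Or.inl ⟨h6, fun h7 => h7.2 h6⟩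
        · exact Or.inr ⟨⟨h5, h6⟩, h6⟩

/-- every class killed by a power of two is the class of a set -/
theorem surjF (hL : S_LOCF)
    (hSha : ∀ x : Sha (WZ (-2 * (34 * (n : ℤ))) ((34 * (n : ℤ)) ^ 2 - 4 * (n : ℤ) ^ 2)),
      x + x = 0 → x = 0)
    (x : Sha (WZ (34 * n) ((n : ℤ) ^ 2))) (k : ℕ) (hx : (2 ^ k) • x = 0) :
    ∃ (J : Finset ℕ) (hJ : CG 2 1 n.primeFactors J),
      cls (WZ (34 * n) ((n : ℤ) ^ 2)) ⟨coc (nn_ne hn) (dC J), memF hn hL hJ⟩ = x := by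
  obtain ⟨d, hd, hc, hx'⟩ := prim (nn_ne hn) (habF hn) hSha x k hx
  have hd0 : d ≠ 0 := hd.ne_zero
  have l1 : ∀ (p : ℕ) [Fact p.Prime], LK ℚ_[p] (34 * n) ((n : ℤ) ^ 2) d := fun p _ =>
    lcb _ _ (nn_ne hn) d hd0 ℚ_[p] (hc.2.1 p)
  have l2 : LK ℝ (34 * n) ((n : ℤ) ^ 2) d := lcb _ _ (nn_ne hn) d hd0 ℝ hc.2.2
  obtain ⟨J, hJ, m, hm, c, hcc, hdJ⟩ := necF hn hL hd l1 l2
  refine ⟨J, hJ, ?_⟩
  rw [← hx']
  symm
  apply cls_eq
  refine (cob_sub (nn_ne hn) hd0 (dC_sqf hn hJ.1).ne_zero hm hdJ).2 ?_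
  rcases hcc with h | h
  · rw [h, coc_one]
    exact cob_zero _
  · rw [h]
    exact cob2 hn

/-- **the 2-primary part of `Ш(WF n)`** -/
theorem strF (hL : S_LOCF) (hJF : S_JF) (hTR : S_TR) (hQ : Qc n)
    (hk : ∃ k : ℕ, Odd k ∧
      Nat.card (WZ (-2 * (34 * (n : ℤ))) ((34 * (n : ℤ)) ^ 2 - 4 * (n : ℤ) ^ 2)).toAffine.Point =
        4 * k)
    (hSha : ∀ x : Sha (WZ (-2 * (34 * (n : ℤ))) ((34 * (n : ℤ)) ^ 2 - 4 * (n : ℤ) ^ 2)),
      x + x = 0 → x = 0) :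
    2 * Nat.card {x : Sha (WZ (34 * n) ((n : ℤ) ^ 2)) // ∃ k : ℕ, 2 ^ k • x = 0} =
      2 ^ (n.primeFactors.filter fun p => ¬ IsSquare (2 : ZMod p)).card ∧
    ∀ x : Sha (WZ (34 * n) ((n : ℤ) ^ 2)), (∃ k : ℕ, 2 ^ k • x = 0) → x + x = 0 := by
  obtain ⟨hcard, hcompl⟩ := hJF n hn hQ
  have htwo : ∀ (J : Finset ℕ) (hJ : CG 2 1 n.primeFactors J),
      cls (WZ (34 * n) ((n : ℤ) ^ 2)) ⟨coc (nn_ne hn) (dC J), memF hn hL hJ⟩ +
      cls (WZ (34 * n) ((n : ℤ) ^ 2)) ⟨coc (nn_ne hn) (dC J), memF hn hL hJ⟩ = 0 := by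
    intro J hJ
    rw [← cls_add, cls_zero_iff]
    change IsCob (WZ (34 * n) ((n : ℤ) ^ 2)) (coc (nn_ne hn) (dC J) + coc (nn_ne hn) (dC J))
    rw [coc_two]
    exact (cob _).zero_mem
  refine ⟨?_, ?_⟩
  swap
  · rintro x ⟨k, hx⟩
    obtain ⟨J, hJ, rfl⟩ := surjF hn hL hSha x k hx
    exact htwo J hJ
  obtain ⟨p₀, hp₀⟩ : n.primeFactors.Nonempty := by
    rw [Nat.nonempty_primeFactors]
    have := hn.2
    omega
  let T := n.primeFactors.powerset.filter fun J => CG 2 1 n.primeFactors J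
  let T₀ := T.filter fun J => p₀ ∉ J
  have hT : ∀ J : T₀, CG 2 1 n.primeFactors (J : Finset ℕ) := fun J =>
    (mem_filter.1 (mem_filter.1 J.2).1).2
  have hT' : ∀ J : T₀, p₀ ∉ (J : Finset ℕ) := fun J => (mem_filter.1 J.2).2
  have hclseq : ∀ (J J' : Finset ℕ) (hJ : CG 2 1 n.primeFactors J)
      (hJ' : CG 2 1 n.primeFactors J'),
      cls (WZ (34 * n) ((n : ℤ) ^ 2)) ⟨coc (nn_ne hn) (dC J), memF hn hL hJ⟩ =
      cls (WZ (34 * n) ((n : ℤ) ^ 2)) ⟨coc (nn_ne hn) (dC J'), memF hn hL hJ'⟩ ↔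
      (J' = J ∨ J' = n.primeFactors \ J) := by
    intro J J' hJ hJ'
    rw [← injF hn hTR hk hJ.1 hJ'.1]
    exact ⟨fun h => cob_of_eq h, fun h => cls_eq h⟩
  let Φ : T₀ → {x : Sha (WZ (34 * n) ((n : ℤ) ^ 2)) // ∃ k : ℕ, 2 ^ k • x = 0} := fun J =>
    ⟨cls (WZ (34 * n) ((n : ℤ) ^ 2)) ⟨coc (nn_ne hn) (dC (J : Finset ℕ)),
      memF hn hL (hT J)⟩, ⟨1, by rw [pow_one, two_nsmul]; exact htwo _ (hT J)⟩⟩
  have hΦ : Function.Bijective Φ := by
    constructor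
    · intro J J' h
      rcases (hclseq _ _ (hT J) (hT J')).1 (congrArg Subtype.val h) with h1 | h1
      · exact Subtype.ext h1.symm
      · exfalso
        apply hT' J'
        rw [h1]
        exact mem_sdiff.2 ⟨hp₀, hT' J⟩
    · rintro ⟨x, k, hx⟩
      obtain ⟨J, hJ, hJx⟩ := surjF hn hL hSha x k hx
      by_cases h : p₀ ∈ J
      · have hJc := hcompl J hJ
        refine ⟨⟨n.primeFactors \ J, mem_filter.2 ⟨mem_filter.2 ⟨mem_powerset.2 hJc.1, hJc⟩,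
          fun h' => (mem_sdiff.1 h').2 h⟩⟩, Subtype.ext ?_⟩
        exact ((hclseq _ _ hJ hJc).2 (Or.inr rfl)).symm.trans hJx
      · exact ⟨⟨J, mem_filter.2 ⟨mem_filter.2 ⟨mem_powerset.2 hJ.1, hJ⟩, h⟩⟩, Subtype.ext hJx⟩
  have h0 : T.card = 2 ^ (n.primeFactors.filter fun p => ¬ IsSquare (2 : ZMod p)).card := hcard
  rw [← Nat.card_congr (Equiv.ofBijective Φ hΦ), Nat.card_eq_fintype_card, Fintype.card_coe, ← h0]
  have h1 : T₀.card + (T.filter fun J => ¬ p₀ ∉ J).card = T.card :=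
    card_filter_add_card_filter_not _
  have h2 : T₀.card = (T.filter fun J => ¬ p₀ ∉ J).card := by
    refine card_bij (fun J _ => n.primeFactors \ J) ?_ ?_ ?_
    · intro J hJ
      obtain ⟨h3, h4⟩ := mem_filter.1 hJ
      have h5 := hcompl J (mem_filter.1 h3).2
      exact mem_filter.2 ⟨mem_filter.2 ⟨mem_powerset.2 h5.1, h5⟩,
        fun h6 => h6 (mem_sdiff.2 ⟨hp₀, h4⟩)⟩
    · intro J hJ J' hJ' h
      have h3 := (mem_filter.1 (mem_filter.1 hJ).1).2.1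
      have h4 := (mem_filter.1 (mem_filter.1 hJ').1).2.1
      have h5 : n.primeFactors \ (n.primeFactors \ J) = n.primeFactors \ (n.primeFactors \ J') := by
        rw [h]
      rwa [Finset.sdiff_sdiff_eq_self h3, Finset.sdiff_sdiff_eq_self h4] at h5
    · intro J hJ
      obtain ⟨h3, h4⟩ := mem_filter.1 hJ
      have h5 := (mem_filter.1 h3).2
      have h6 := hcompl J h5
      refine ⟨n.primeFactors \ J, mem_filter.2 ⟨mem_filter.2 ⟨mem_powerset.2 h6.1, h6⟩,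
        fun h7 => ?_⟩, Finset.sdiff_sdiff_eq_self h5.1⟩
      exact h4 (mem_sdiff.1 h7).2
  omega

end

/-- **SF** -/
theorem t_SF : S_SF := by
  intro hL hJ hTR n hn hQ hk hSha
  have e : (1 : ℤ) * (n : ℤ) ^ 2 = (n : ℤ) ^ 2 := one_mul _
  rw [e] at hk hSha ⊢
  exact strF hn hL hJ hTR hQ hk hSha

end Pool.Agent.N681.SN
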